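import Pool.Agent.H892.LEC.Few

/-!
# The list edge-colouring conjecture when the part near the vertices of large degree is sparse

A common generalisation of the theorem for graphs of maximum average degree at most
`c * D / log D` (`T` = all vertices) and of a bound `D + O(√(D log n) + log n)`, respectively
`D + o(√(n log n))`, for the list chromatic index of all graphs on `n` vertices (`T` empty). The
two main tools (`Sparse.main_edge` and the theorems `T_S`, `T_D`) are those of the project of
helper162 in the starting repository.
-/

set_option autoImplicit false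

namespace Pool.Agent.Results.MP_2f9829_co.SparseLargeDegrees

/-- There is a real number `K` such that for every `ε > 0` there is `n₀` with the following
property. Let `G` be a finite simple graph with `n` vertices and all degrees at most `D`, let `T`
be a set of vertices, and let `a`, `s` be real numbers with `s ≥ K (√(D log n) + log n)`, or with
`n ≥ n₀` and `s ≥ ε √(n log n)`. Suppose

* `34 a (1 + log D) ≤ D` and every subset `X` of `T` spans at most `a |X| / 2` edges (at most
  `a |X|` ordered pairs of adjacent vertices);
* every vertex outside `T` has at most `a / 2` neighbours in `T` and at most `D - a - s` neighbours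
  outside `T`.

Then `G` is edge-colourable from all lists of `D` colours, and if `D` is the maximum degree, the
list edge-colouring conjecture holds for `G`: for every `k` the edges can be properly coloured with
`k` colours if and only if they can be coloured from all lists of size at least `k`. -/
theorem result : ∃ K : ℝ, ∀ ε : ℝ, 0 < ε → ∃ n₀ : ℕ, ∀ (V : Type) [Fintype V]
    (G : SimpleGraph V) (D : ℕ) (T : Finset V) (a s : ℝ),
    (K * (Real.sqrt (D * Real.log (Fintype.card V)) + Real.log (Fintype.card V)) ≤ s ∨
      n₀ ≤ Fintype.card V ∧ ε * Real.sqrt (Fintype.card V * Real.log (Fintype.card V)) ≤ s) →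
    34 * a * (1 + Real.log D) ≤ D →
    (∀ v, (G.neighborSet v).ncard ≤ D) →
    (∀ X : Finset V, X ⊆ T →
      ({e : V × V | e.1 ∈ X ∧ e.2 ∈ X ∧ G.Adj e.1 e.2}.ncard : ℝ) ≤ a * X.card) →
    (∀ v ∉ T, ({w : V | w ∈ T ∧ G.Adj v w}.ncard : ℝ) ≤ a / 2) →
    (∀ v ∉ T, ({w : V | w ∉ T ∧ G.Adj v w}.ncard : ℝ) ≤ D - a - s) →
    (∀ L : G.edgeSet → Finset ℕ, (∀ e, D ≤ (L e).card) →
      ∃ f : G.edgeSet → ℕ, (∀ e, f e ∈ L e) ∧
        ∀ e e', G.lineGraph.Adj e e' → f e ≠ f e') ∧
    (∀ v, (G.neighborSet v).ncard = D → ∀ k : ℕ, G.lineGraph.Colorable k ↔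
      ∀ L : G.edgeSet → Finset ℕ, (∀ e, k ≤ (L e).card) →
        ∃ f : G.edgeSet → ℕ, (∀ e, f e ∈ L e) ∧
          ∀ e e', G.lineGraph.Adj e e' → f e ≠ f e') :=
  Pool.Agent.H892.LEC.main

end Pool.Agent.Results.MP_2f9829_co.SparseLargeDegrees
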